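import Pool.Agent.Helper1K1.AF.Low

/-!
# The discriminant exponent of the associated form is one

For all `n ≥ 2` and `d ≥ 3` the number `p(n, d)` equals `1`: in the notation of the problem file,
`Δ μ_i` is a polynomial in the coefficients of `f` for every exponent vector `i` of degree
`n (d - 2)`, and `Δ ^ k μ_i` is not a polynomial for any integer `k ≤ 0` and any `i`.

The definitions `Mon`, `form`, `Nondegenerate`, `hess`, `jacIdeal`, `IsDiscriminant` are in
`Pool.Agent.Helper56.Disc.Defs`. `Mon n d` is the type of the exponent vectors of degree `d`,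
`form c` is the form with the coefficients `c`, `hess f` is the Hessian determinant of `f`,
`jacIdeal f` is the ideal of the first partial derivatives of `f`. `IsDiscriminant Δ` says that `Δ`
is an irreducible polynomial in the coefficients of the forms of degree `d` which vanishes exactly at
the forms with a nonzero common zero of the first partial derivatives.
-/

set_option autoImplicit false

namespace Pool.Agent.Results.MP_ee1e03_al.ExponentOne

open MvPolynomial Pool.Agent.Helper56.Disc Pool.Agent.Helper1K1.AF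

open Classical in
/-- The number `μ_i(f)` for the form `f` with coefficients `c`, the scalar `v` for which
`z ^ i - v H_f` lies in the ideal of the partial derivatives of `f`. -/
noncomputable def mu {n d : ℕ} (c : Mon n d → ℂ) (i : Mon n (n * (d - 2))) : ℂ :=
  if h : ∃ v : ℂ, monomial i.1 1 - C v * hess (form c) ∈ jacIdeal (form c) then h.choose else 0

/-- `Δ ^ k μ_i` is a polynomial function: some polynomial in the coefficients agrees with it
wherever `Δ` does not vanish. -/
def PowPolynomial {n d : ℕ} (Δ : MvPolynomial (Mon n d) ℂ) (i : Mon n (n * (d - 2))) (k : ℤ) :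
    Prop :=
  ∃ P : MvPolynomial (Mon n d) ℂ, ∀ c : Mon n d → ℂ, eval c Δ ≠ 0 →
    eval c P = eval c Δ ^ k * mu c i

/-- The number `p_i`. -/
noncomputable def pExp {n d : ℕ} (Δ : MvPolynomial (Mon n d) ℂ) (i : Mon n (n * (d - 2))) : ℤ :=
  sInf {k : ℤ | PowPolynomial Δ i k}

/-- The number `p = p(n, d)`, the largest of the numbers `p_i`. -/
noncomputable def pMax {n d : ℕ} (Δ : MvPolynomial (Mon n d) ℂ) : ℤ :=
  ⨆ i : Mon n (n * (d - 2)), pExp Δ i

/-- For all `n ≥ 2` and `d ≥ 3` the discriminant exists; the numbers `μ_i(f)` are well defined for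
nondegenerate `f`; the least integer `k` for which `Δ ^ k μ_i` is polynomial is `1` for all `i`;
hence `p(n, d) = 1`. -/
theorem result (n d : ℕ) (hn : 2 ≤ n) (hd : 3 ≤ d) :
    (∃ Δ : MvPolynomial (Mon n d) ℂ, IsDiscriminant Δ) ∧
    (∀ c : Mon n d → ℂ, Nondegenerate (form c) → ∀ (i : Mon n (n * (d - 2))) (v : ℂ),
      monomial i.1 1 - C v * hess (form c) ∈ jacIdeal (form c) ↔ v = mu c i) ∧
    ∀ Δ : MvPolynomial (Mon n d) ℂ, IsDiscriminant Δ →
      (∀ i : Mon n (n * (d - 2)), IsLeast {k : ℤ | PowPolynomial Δ i k} 1) ∧ pMax Δ = 1 := by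
  obtain ⟨N, rfl⟩ : ∃ N, n = N + 1 := ⟨n - 1, by omega⟩
  have hmu : ∀ c : Mon (N + 1) d → ℂ, Nondegenerate (form c) →
      ∀ (i : Mon (N + 1) ((N + 1) * (d - 2))) (v : ℂ),
      monomial i.1 1 - C v * hess (form c) ∈ jacIdeal (form c) ↔ v = mu c i := by
    intro c hc i v
    have hex : ∃ v : ℂ, monomial i.1 1 - C v * hess (form c) ∈ jacIdeal (form c) := by
      obtain ⟨v, hv⟩ := (socle_form (by omega) c hc).2 (Pi.single i 1)
      rw [form_single] at hv
      exact ⟨v, hv⟩
    have hmuv : mu c i = hex.choose := by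
      unfold mu
      rw [dif_pos hex]
    have huniq : ∀ v w : ℂ, monomial i.1 1 - C v * hess (form c) ∈ jacIdeal (form c) →
        monomial i.1 1 - C w * hess (form c) ∈ jacIdeal (form c) → v = w := by
      intro v w hv hw
      by_contra hne
      apply (socle_form (by omega) c hc).1
      have h1 := Ideal.sub_mem _ hw hv
      have h2 := Ideal.mul_mem_left _ (C (v - w)⁻¹) h1
      have h3 : C (v - w)⁻¹ * (monomial i.1 1 - C w * hess (form c) -
          (monomial i.1 1 - C v * hess (form c))) = hess (form c) := by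
        have : C (v - w)⁻¹ * (monomial i.1 1 - C w * hess (form c) -
          (monomial i.1 1 - C v * hess (form c))) = C ((v - w)⁻¹ * (v - w)) * hess (form c) := by
          rw [map_mul, map_sub]; ring
        rw [this, inv_mul_cancel₀ (sub_ne_zero.2 hne), map_one, one_mul]
      rwa [h3] at h2
    rw [hmuv]
    exact ⟨fun hv => huniq _ _ hv hex.choose_spec, fun hv => hv ▸ hex.choose_spec⟩
  refine ⟨exists_discriminant (by omega) hd, hmu, fun Δ hΔ => ?_⟩
  have hnd : ∀ c : Mon (N + 1) d → ℂ, eval c Δ ≠ 0 ↔ Nondegenerate (form c) := fun c =>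
    (not_congr (hΔ.2 c)).trans not_not
  have key : ∀ i : Mon (N + 1) ((N + 1) * (d - 2)),
      IsLeast {k : ℤ | PowPolynomial Δ i k} 1 := by
    intro i
    constructor
    · obtain ⟨P, hP⟩ := extension (by omega) hd Δ hΔ (Pi.single i 1)
      refine ⟨P, fun c hc => ?_⟩
      have hc' := (hnd c).1 hc
      rw [zpow_one]
      apply hP c hc'
      rw [form_single]
      exact (hmu c hc' i _).2 rfl
    · rintro k ⟨P, hP⟩
      by_contra hk
      obtain ⟨j, hj⟩ : ∃ j : ℕ, k = -(j : ℤ) := ⟨(-k).toNat, by omega⟩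
      have h1 : ∀ c : Mon (N + 1) d → ℂ, Nondegenerate (form c) → ∀ v : ℂ,
          monomial i.1 1 - C v * hess (form c) ∈ jacIdeal (form c) → eval c (Δ ^ j * P) = v := by
        intro c hc v hv
        have hc' := (hnd c).2 hc
        rw [(hmu c hc i v).1 hv, map_mul, hP c hc', map_pow, hj, zpow_neg, zpow_natCast,
          ← mul_assoc, mul_inv_cancel₀ (pow_ne_zero _ hc'), one_mul]
      have hc : Nondegenerate (form (ctf N d)) := by
        rw [form_ctf]; exact tf_nondeg hd
      have h2 := mu_zero (monomial i.1 1) (Δ ^ j * P) h1 (ctf N d) hc _ ((hmu _ hc i _).2 rfl)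
      have h3 := (hmu _ hc i _).2 rfl
      rw [h2, map_zero, zero_mul, sub_zero, form_ctf] at h3
      exact not_mem_tf hd i.1 (mon_degree i) h3
  refine ⟨key, ?_⟩
  have hp : ∀ i, pExp Δ i = 1 := fun i => (key i).csInf_eq
  have : Nonempty (Mon (N + 1) ((N + 1) * (d - 2))) := ⟨e0 _ _⟩
  unfold pMax
  simp only [hp, ciSup_const]

end Pool.Agent.Results.MP_ee1e03_al.ExponentOne
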